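import Pool.Agent.Helper89.R9.Sheet
import Pool.Agent.Helper34.R8.PTS

/-! # Row PTS9 (MP_798d7d_nt, sheet R9W): the nine points of the family -/

set_option autoImplicit false

namespace Pool.Helper89.R9W

open Pool.Agent.Helper97.RK (cur)
open Pool.Helper17.R8 (ek q4 q3 q2 q1 q0 fI fJ ss yv y9 xX pI pJ ST_VIE ST_PT)

namespace H88

open Pool.Helper17.R8.S34 (pts_yv pts_y9 ek_one_ss pts_root pts_c1 pts_c2)

theorem MM13 : (13 : ℤ) ∣ MM := by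
  unfold MM
  refine Dvd.dvd.mul_left ?_ _
  exact_mod_cast (Nat.dvd_factorial (by norm_num) (by unfold QQ; norm_num) : 13 ∣ Nat.factorial QQ)

/-- residues modulo 13 -/
theorem ss13 (w : Par) (hw : Cong w) : ∀ j : Fin 8,
    (13 : ℤ) ∣ ss w.1 j - (![-7, 5, 11, 9, -15, -17, 1, 13] : Fin 8 → ℤ) j := by
  obtain ⟨hw1, -⟩ := hw
  have h : ∀ i, (13 : ℤ) ∣ w.1 i - ub i := fun i => MM13.trans (hw1 i)
  have h0 := h 0
  have h1 := h 1
  have h2 := h 2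
  have h3 := h 3
  have h4 := h 4
  have h5 := h 5
  simp only [ub, Matrix.cons_val] at h0 h1 h2 h3 h4 h5
  intro j
  fin_cases j <;> simp only [ss, Matrix.cons_val, Fin.zero_eta, Fin.mk_one, Fin.reduceFinMk] <;>
    omega

theorem ek_cast (s : Fin 8 → ℤ) (k : ℕ) :
    ((ek s k : ℤ) : ZMod 13) = ek (fun i => ((s i : ℤ) : ZMod 13)) k := by
  unfold ek
  push_cast
  rfl

/-- `pv` over a ring -/
def pvR {R : Type*} [CommRing R] (s : Fin 8 → R) (Y : R) (j : Fin 9) : R :=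
  if j = 8 then 6 * (s 0 ^ 2 - Y)
  else if j = 7 then 6 * (s 0 ^ 2 * (-(Y ^ 2 + (1 + ek s 2 - ek s 3) * Y + (1 + ek s 2 - ek s 3) +
    ek s 4 - ek s 5)) + ek s 8)
  else 6 * (s (sj j) ^ 2 - s 7 ^ 2)

theorem pv_cast (w : Par) (j : Fin 9) : ((pv w j : ℤ) : ZMod 13) =
    pvR (fun i => ((ss w.1 i : ℤ) : ZMod 13)) ((w.2 : ℤ) : ZMod 13) j := by
  unfold pv pvR
  split_ifs
  · push_cast
    rfl
  · simp only [tt, tau, g1]
    push_cast
    simp only [ek_cast]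
  · push_cast
    rfl

theorem pvR_base : ∀ j : Fin 9, pvR (fun i => (((![-7, 5, 11, 9, -15, -17, 1, 13] : Fin 8 → ℤ) i :
    ℤ) : ZMod 13)) (-40) j ≠ 0 := by
  decide +kernel

theorem pts_pv (w : Par) (hw : Cong w) (j : Fin 9) : pv w j ≠ 0 := by
  have hs := ss13 w hw
  have ht : (13 : ℤ) ∣ w.2 + 40 := MM13.trans hw.2
  have hz : (fun j : Fin 8 => ((ss w.1 j : ℤ) : ZMod 13)) =
      fun j => (((![-7, 5, 11, 9, -15, -17, 1, 13] : Fin 8 → ℤ) j : ℤ) : ZMod 13) := by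
    funext j
    have := (ZMod.intCast_zmod_eq_zero_iff_dvd _ 13).2 (hs j)
    push_cast at this ⊢
    exact sub_eq_zero.1 this
  have htz : ((w.2 : ℤ) : ZMod 13) = -40 := by
    have := (ZMod.intCast_zmod_eq_zero_iff_dvd _ 13).2 ht
    push_cast at this
    exact eq_neg_of_add_eq_zero_left this
  intro h0
  have h1 : ((pv w j : ℤ) : ZMod 13) = 0 := by
    rw [h0]
    simp
  rw [pv_cast, hz, htz] at h1
  exact pvR_base j h1

theorem ss_six (u : Fin 6 → ℤ) : ss u 6 = 1 := by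
  simp only [ss, Matrix.cons_val]

/-- `1` is a root -/
theorem one_root (hV : ST_VIE) (u : Fin 6 → ℤ) :
    1 + ek (ss u) 2 - ek (ss u) 3 + ek (ss u) 4 - ek (ss u) 5 + ek (ss u) 6 - ek (ss u) 7 +
      ek (ss u) 8 = 0 := by
  have h := pts_root hV u 6
  rw [ss_six] at h
  linarith

/-- a finite point and the point `Y` -/
theorem pts_c3 (hP : ST_PT) (e : ℕ → ℤ) (t A B a Y : ℤ) (hA : 48 * A = -(fI e t))
    (hB : 1728 * B = -(fJ e t)) (htY : t = tau e Y)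
    (h1 : 1 + e 2 - e 3 + e 4 - e 5 + e 6 - e 7 + e 8 = 0)
    (ha : a ^ 8 + e 2 * a ^ 6 - e 3 * a ^ 5 + e 4 * a ^ 4 - e 5 * a ^ 3 + e 6 * a ^ 2 - e 7 * a +
      e 8 = 0)
    (x v : ℤ) (hx : x = 3 * xX e t (a ^ 2) (yv e t a) Y 1 (yY e t Y))
    (hv : v = 6 * (a ^ 2 - Y)) (hv0 : v ≠ 0) :
    ∃ y : ℚ, y ^ 2 = ((x : ℚ) / (v : ℚ) ^ 2) ^ 3 + (A : ℚ) * ((x : ℚ) / (v : ℚ) ^ 2) + (B : ℚ) := by
  have hA' : (48 : ℚ) * (A : ℚ) = -(fI (fun k => (e k : ℚ)) (t : ℚ)) := by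
    have := congrArg (fun z : ℤ => (z : ℚ)) hA
    simp only [fI, q4, q3, q2, q1, q0] at this ⊢
    push_cast at this
    exact this
  have hB' : (1728 : ℚ) * (B : ℚ) = -(fJ (fun k => (e k : ℚ)) (t : ℚ)) := by
    have := congrArg (fun z : ℤ => (z : ℚ)) hB
    simp only [fJ, q4, q3, q2, q1, q0] at this ⊢
    push_cast at this
    exact this
  have hra := pts_yv (fun k => (e k : ℚ)) (t : ℚ) (a : ℚ) (by exact_mod_cast ha)
  have hY0 := chk_yY e Y h1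
  rw [← htY] at hY0
  have hY1 : (yY (fun k => (e k : ℚ)) (t : ℚ) (Y : ℚ)) ^ 2 =
      q4 (fun k => (e k : ℚ)) (t : ℚ) * (Y : ℚ) ^ 4 + q3 (fun k => (e k : ℚ)) (t : ℚ) * (Y : ℚ) ^ 3 +
      q2 (fun k => (e k : ℚ)) (t : ℚ) * (Y : ℚ) ^ 2 + q1 (fun k => (e k : ℚ)) (t : ℚ) * (Y : ℚ) +
      q0 (fun k => (e k : ℚ)) (t : ℚ) := by
    have := congrArg (fun z : ℤ => (z : ℚ)) hY0
    simp only [yY, q4, q3, q2, q1, q0] at this ⊢
    push_cast at this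
    exact this
  have hne : ((a : ℚ) ^ 2) * (1 : ℚ) - (Y : ℚ) ≠ 0 := by
    intro h
    apply hv0
    have h2 : ((a ^ 2 - Y : ℤ) : ℚ) = 0 := by
      push_cast
      linarith
    have h3 : a ^ 2 - Y = 0 := by exact_mod_cast h2
    rw [hv, h3, mul_zero]
  obtain ⟨y, hy⟩ := hP (fun k => (e k : ℚ)) (t : ℚ) (A : ℚ) (B : ℚ) ((a : ℚ) ^ 2)
    (yv (fun k => (e k : ℚ)) (t : ℚ) (a : ℚ)) (Y : ℚ) 1
    (yY (fun k => (e k : ℚ)) (t : ℚ) (Y : ℚ)) hA' hB' hra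
    (by rw [hY1]; ring) one_ne_zero hne
  refine ⟨y, ?_⟩
  have hq : ((x : ℚ) / (v : ℚ) ^ 2) =
      xX (fun k => (e k : ℚ)) (t : ℚ) ((a : ℚ) ^ 2)
        (yv (fun k => (e k : ℚ)) (t : ℚ) (a : ℚ)) (Y : ℚ) 1
        (yY (fun k => (e k : ℚ)) (t : ℚ) (Y : ℚ)) /
        (12 * ((a : ℚ) ^ 2 * (1 : ℚ) - (Y : ℚ)) ^ 2) := by
    rw [div_eq_div_iff (pow_ne_zero 2 (by exact_mod_cast hv0))
      (mul_ne_zero (by norm_num) (pow_ne_zero 2 hne)), hx, hv]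
    simp only [xX, yv, yY, q4, q3, q2, q1, q0]
    push_cast
    ring
  rw [hq]
  exact hy

end H88

open H88 Pool.Helper17.R8.S34

theorem tt_ne (w : Par) (hw : Cong w) : tt w ≠ 0 := by
  have hs := ss13 w hw
  have ht : (13 : ℤ) ∣ w.2 + 40 := MM13.trans hw.2
  have hz : (fun j : Fin 8 => ((ss w.1 j : ℤ) : ZMod 13)) =
      fun j => (((![-7, 5, 11, 9, -15, -17, 1, 13] : Fin 8 → ℤ) j : ℤ) : ZMod 13) := by
    funext j
    have := (ZMod.intCast_zmod_eq_zero_iff_dvd _ 13).2 (hs j)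
    push_cast at this ⊢
    exact sub_eq_zero.1 this
  have htz : ((w.2 : ℤ) : ZMod 13) = -40 := by
    have := (ZMod.intCast_zmod_eq_zero_iff_dvd _ 13).2 ht
    push_cast at this
    exact eq_neg_of_add_eq_zero_left this
  intro h0
  have h1 : ((tt w : ℤ) : ZMod 13) = 0 := by
    rw [h0]
    simp
  simp only [tt, tau, g1] at h1
  push_cast at h1
  simp only [ek_cast] at h1
  rw [hz, htz] at h1
  revert h1
  decide +kernel

/-- row PTS9 -/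
theorem st_PTS9 (hV : ST_VIE) (hP : ST_PT) (hR : ST_REL9) : ST_PTS9 := by
  intro w hw j
  refine ⟨H88.pts_pv w hw j, ?_⟩
  obtain ⟨hA, hB, -, -⟩ := hR w hw
  have hpv := H88.pts_pv w hw j
  by_cases hj8 : j = 8
  · refine pts_c3 hP (ek (ss w.1)) (tt w) (cA w) (cB w) (ss w.1 0) w.2 hA hB rfl
      (one_root hV w.1) (pts_root hV w.1 0) (px w j) (pv w j) ?_ ?_ hpv
    · rw [px, if_pos hj8]
    · rw [pv, if_pos hj8]
  · by_cases hj : j = 7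
    · refine pts_c2 hP (ek (ss w.1)) (tt w) (cA w) (cB w) (ss w.1 0) hA hB (tt_ne w hw)
        (pts_root hV w.1 0) (px w j) (pv w j) ?_ ?_ hpv
      · rw [px, if_neg hj8, if_pos hj]
      · rw [pv, if_neg hj8, if_pos hj]
    · refine pts_c1 hP (ek (ss w.1)) (tt w) (cA w) (cB w) (ss w.1 (sj j)) (ss w.1 7) hA hB
        (pts_root hV w.1 (sj j)) (pts_root hV w.1 7) (px w j) (pv w j) ?_ ?_ hpv
      · rw [px, if_neg hj8, if_neg hj]
      · rw [pv, if_neg hj8, if_neg hj]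

end Pool.Helper89.R9W

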